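import Pool.Agent.Q291.MK.Stm

/-!
# Job CHEB: Chebyshev and Harris inequalities
-/

namespace Pool.Agent.Q222.MK

open Pool.Agent.Q291.MK Finset

/-- Chebyshev's inequality for an antitone and a monotone function. -/
lemma cheb_one {a : ℕ → ℝ} (ha : AM a) {g φ : ℕ → ℝ} (hg : PB g) (hφ : PB φ)
    (hga : Antitone g) (hφm : Monotone φ) :
    E a (fun k => g k * φ k) ≤ E a g * E a φ := by
  have hgφ := hg.mul hφ
  have p1 : PB2 (fun K _ : ℕ => g K * φ K) := PB2.fst hgφ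
  have p2 : PB2 (fun _ L : ℕ => g L * φ L) := PB2.snd hgφ
  have p3 : PB2 (fun K L : ℕ => g K * φ L) := (PB2.fst hg).mul (PB2.snd hφ)
  have p4 : PB2 (fun K L : ℕ => φ K * g L) := (PB2.fst hφ).mul (PB2.snd hg)
  have h1 : E2 a (fun K L => (g K * φ K + g L * φ L) - (g K * φ L + φ K * g L)) ≤
      E2 a (fun _ _ => 0) := by
    refine ha.E2_mono ((p1.add p2).sub (p3.add p4)) (PB2.const 0) fun K L => ?_
    have : (g K * φ K + g L * φ L) - (g K * φ L + φ K * g L) = (g K - g L) * (φ K - φ L) := by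
      ring
    rw [this]
    rcases le_total K L with h | h
    · exact mul_nonpos_of_nonneg_of_nonpos (sub_nonneg.2 (hga h)) (sub_nonpos.2 (hφm h))
    · exact mul_nonpos_of_nonpos_of_nonneg (sub_nonpos.2 (hga h)) (sub_nonneg.2 (hφm h))
  rw [ha.E2_cst, ha.E2_sub (p1.add p2) (p3.add p4), ha.E2_add p1 p2, ha.E2_add p3 p4,
    ha.E2_fst hgφ, ha.E2_snd hgφ, ha.E2_mul hg hφ, ha.E2_mul hφ hg] at h1
  linarith

lemma sec {φ : ℕ → ℕ → ℝ} (h : PB2 φ) (K : ℕ) : PB (φ K) := by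
  obtain ⟨C, q, hC, h⟩ := h.nonneg_C
  refine ⟨C * (1 + (K:ℝ)) ^ q, q, fun L => (h K L).trans (le_of_eq ?_)⟩
  rw [mul_pow]; ring

lemma E2_iter {a : ℕ → ℝ} (ha : AM a) {φ : ℕ → ℕ → ℝ} (h : PB2 φ) :
    E2 a φ = E a (fun K => E a (φ K)) := by
  unfold E2
  rw [(ha.summ2 h).tsum_prod]
  unfold E
  refine tsum_congr fun K => ?_
  rw [← tsum_mul_left]
  exact tsum_congr fun L => by ring

lemma PB_iter {a : ℕ → ℝ} (ha : AM a) {φ : ℕ → ℕ → ℝ} (h : PB2 φ) :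
    PB (fun K => E a (φ K)) := by
  have h0 := h
  obtain ⟨C, q, hC, h⟩ := h.nonneg_C
  have hq : PB (fun L : ℕ => (1 + (L:ℝ)) ^ q) := ((PB.const 1).add PB.id).pow q
  refine ⟨C * E a (fun L : ℕ => (1 + (L:ℝ)) ^ q), q, fun K => ?_⟩
  refine (ha.abs_E_le (sec h0 K)).trans ?_
  have h1 : E a (fun L => |φ K L|) ≤ E a (fun L => (C * (1 + (K:ℝ)) ^ q) * (1 + (L:ℝ)) ^ q) := by
    refine ha.E_mono (sec h0 K).abs ((PB.const _).mul hq) fun L => (h K L).trans (le_of_eq ?_)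
    rw [mul_pow]; ring
  rw [E_const_mul] at h1
  linarith

/-- The same for the product law. -/
lemma cheb_two {a : ℕ → ℝ} (ha : AM a) {g φ : ℕ → ℕ → ℝ} (hg : PB2 g) (hφ : PB2 φ)
    (hga1 : ∀ L, Antitone fun K => g K L) (hga2 : ∀ K, Antitone fun L => g K L)
    (hφ1 : ∀ L, Monotone fun K => φ K L) (hφ2 : ∀ K, Monotone fun L => φ K L) :
    E2 a (fun K L => g K L * φ K L) ≤ E2 a g * E2 a φ := by
  rw [E2_iter ha (hg.mul hφ), E2_iter ha hg, E2_iter ha hφ]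
  have h1 : ∀ K, E a (fun L => g K L * φ K L) ≤ E a (g K) * E a (φ K) := fun K =>
    cheb_one ha (sec hg K) (sec hφ K) (hga2 K) (hφ2 K)
  refine (ha.E_mono (PB_iter ha (hg.mul hφ)) ((PB_iter ha hg).mul (PB_iter ha hφ)) h1).trans ?_
  refine cheb_one ha (PB_iter ha hg) (PB_iter ha hφ) (fun K K' h => ?_) (fun K K' h => ?_)
  · exact ha.E_mono (sec hg _) (sec hg _) fun L => hga1 L h
  · exact ha.E_mono (sec hφ _) (sec hφ _) fun L => hφ1 L h

theorem t_CHEB : P_CHEB := by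
  intro a ha
  refine ⟨fun φ hφ hm => cheb_one ha PB.I hφ I_anti hm, fun φ hφ h1 h2 => ?_⟩
  unfold Ew
  rw [div_le_iff₀ ha.Z_pos, mul_comm]
  exact cheb_two ha PB2.I hφ (fun L K K' h => I_anti (by omega))
    (fun K L L' h => I_anti (by omega)) h1 h2

end Pool.Agent.Q222.MK
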