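import Pool.Agent.Q291.MK.Stm

/-!
# Job SLAW: the law of the sum of two independent copies
-/

namespace Pool.Agent.Q222.MK

open Pool.Agent.Q291.MK Finset

lemma hasSum_S {a : ℕ → ℝ} (ha : AM a) {φ : ℕ → ℝ} (h : PB2 (fun K L => φ (K + L))) :
    HasSum (fun k => S a k * φ k) (E2 a (fun K L => φ (K + L))) := by
  have hs := ha.summ2 h
  have h1 : HasSum (fun p : ℕ × ℕ => a p.1 * a p.2 * φ (p.1 + p.2))
      (E2 a (fun K L => φ (K + L))) := hs.hasSum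
  have h2 := (Finset.HasAntidiagonal.sigmaAntidiagonalEquivProd (A := ℕ)).hasSum_iff.mpr h1
  have h3 := h2.sigma (fun n => hasSum_fintype _)
  have h4 : (fun k => S a k * φ k) = fun b =>
      ∑ c : ↥(Finset.HasAntidiagonal.antidiagonal b),
        ((fun p : ℕ × ℕ => a p.1 * a p.2 * φ (p.1 + p.2)) ∘
          ⇑(Finset.HasAntidiagonal.sigmaAntidiagonalEquivProd (A := ℕ))) ⟨b, c⟩ := by
    funext k
    unfold S
    rw [Finset.sum_mul]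
    simp only [Function.comp, Finset.HasAntidiagonal.sigmaAntidiagonalEquivProd_apply]
    rw [Finset.sum_coe_sort (Finset.HasAntidiagonal.antidiagonal k)
      (fun p : ℕ × ℕ => a p.1 * a p.2 * φ (p.1 + p.2))]
    refine Finset.sum_congr rfl fun p hp => ?_
    rw [Finset.HasAntidiagonal.mem_antidiagonal] at hp
    rw [hp]
  rw [h4]
  exact h3

lemma PB_sum {φ : ℕ → ℝ} (h : PB φ) : PB2 (fun K L => φ (K + L)) := by
  obtain ⟨C, q, hC, h⟩ := h.nonneg_C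
  refine ⟨C, q, fun K L => (h (K + L)).trans ?_⟩
  have h2 : (0:ℝ) ≤ L := Nat.cast_nonneg L
  have h1 : (0:ℝ) ≤ K := Nat.cast_nonneg K
  push_cast
  gcongr
  nlinarith [mul_nonneg h1 h2]

lemma S_nonneg {a : ℕ → ℝ} (ha : AM a) (k : ℕ) : 0 ≤ S a k :=
  Finset.sum_nonneg fun _ _ => mul_nonneg (ha.nn _) (ha.nn _)

lemma AM_S {a : ℕ → ℝ} (ha : AM a) : AM (S a) := by
  refine ⟨⟨S_nonneg ha, ?_⟩, fun q => ?_⟩
  · have h := hasSum_S ha (PB_sum (PB.const 1))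
    rw [ha.E2_cst 1] at h
    simpa using h
  · exact (hasSum_S ha (PB_sum (PB.id.pow q))).summable

theorem t_SLAW_only : P_SLAW := fun _ ha =>
  ⟨AM_S ha, fun _ hφ => ⟨PB_sum hφ, (hasSum_S ha (PB_sum hφ)).tsum_eq⟩⟩

lemma mean_S {a : ℕ → ℝ} (ha : AM a) : mean (S a) = 2 * mean a := by
  have h := (t_SLAW_only a ha).2 _ PB.id
  unfold mean
  rw [h.2]
  have h1 : E2 a (fun K L => ((K + L : ℕ) : ℝ)) = E2 a (fun K L => (K:ℝ) + (L:ℝ)) := by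
    congr 1; funext K L; push_cast; ring
  rw [h1, ha.E2_add (PB2.fst PB.id) (PB2.snd PB.id), ha.E2_fst PB.id, ha.E2_snd PB.id]
  ring

lemma PB_cent (c : ℝ) : PB (fun k => (k:ℝ) - c) := PB.id.sub (PB.const c)

lemma E_cent {a : ℕ → ℝ} (ha : AM a) : E a (fun k => (k:ℝ) - mean a) = 0 := by
  rw [ha.E_sub PB.id (PB.const _), ha.toLaw.E_const]; unfold mean; ring

lemma vr_S {a : ℕ → ℝ} (ha : AM a) : vr (S a) = 2 * vr a := by
  have hc := PB_cent (mean a)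
  have h := (t_SLAW_only a ha).2 _ ((PB_cent (mean (S a))).pow 2)
  have e0 : vr (S a) = E2 a (fun K L => (((K + L : ℕ) : ℝ) - mean (S a)) ^ 2) := h.2
  have e1 : (fun K L : ℕ => (((K + L : ℕ) : ℝ) - mean (S a)) ^ 2) = fun K L : ℕ =>
      (((K:ℝ) - mean a) ^ 2 + ((L:ℝ) - mean a) ^ 2) +
        2 * (((K:ℝ) - mean a) * ((L:ℝ) - mean a)) := by
    funext K L; rw [mean_S ha]; push_cast; ring
  have p1 : PB2 (fun K _ : ℕ => ((K:ℝ) - mean a) ^ 2) := PB2.fst (hc.pow 2)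
  have p2 : PB2 (fun _ L : ℕ => ((L:ℝ) - mean a) ^ 2) := PB2.snd (hc.pow 2)
  have p3 : PB2 (fun K L : ℕ => ((K:ℝ) - mean a) * ((L:ℝ) - mean a)) :=
    (PB2.fst hc).mul (PB2.snd hc)
  rw [e0, e1, ha.E2_add (p1.add p2) ((PB2.const 2).mul p3), ha.E2_add p1 p2, E2_const_mul,
    ha.E2_fst (hc.pow 2), ha.E2_snd (hc.pow 2), ha.E2_mul hc hc, E_cent ha]
  unfold vr; ring

lemma k3_S {a : ℕ → ℝ} (ha : AM a) : k3 (S a) = 2 * k3 a := by
  have hc := PB_cent (mean a)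
  have h := (t_SLAW_only a ha).2 _ ((PB_cent (mean (S a))).pow 3)
  have e0 : k3 (S a) = E2 a (fun K L => (((K + L : ℕ) : ℝ) - mean (S a)) ^ 3) := h.2
  have e1 : (fun K L : ℕ => (((K + L : ℕ) : ℝ) - mean (S a)) ^ 3) = fun K L : ℕ =>
      (((K:ℝ) - mean a) ^ 3 + ((L:ℝ) - mean a) ^ 3) +
        (3 * (((K:ℝ) - mean a) ^ 2 * ((L:ℝ) - mean a)) +
         3 * (((K:ℝ) - mean a) * ((L:ℝ) - mean a) ^ 2)) := by
    funext K L; rw [mean_S ha]; push_cast; ring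
  have p1 : PB2 (fun K _ : ℕ => ((K:ℝ) - mean a) ^ 3) := PB2.fst (hc.pow 3)
  have p2 : PB2 (fun _ L : ℕ => ((L:ℝ) - mean a) ^ 3) := PB2.snd (hc.pow 3)
  have p3 : PB2 (fun K L : ℕ => ((K:ℝ) - mean a) ^ 2 * ((L:ℝ) - mean a)) :=
    (PB2.fst (hc.pow 2)).mul (PB2.snd hc)
  have p4 : PB2 (fun K L : ℕ => ((K:ℝ) - mean a) * ((L:ℝ) - mean a) ^ 2) :=
    (PB2.fst hc).mul (PB2.snd (hc.pow 2))
  rw [e0, e1, ha.E2_add (p1.add p2) (((PB2.const 3).mul p3).add ((PB2.const 3).mul p4)),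
    ha.E2_add p1 p2, ha.E2_add ((PB2.const 3).mul p3) ((PB2.const 3).mul p4),
    E2_const_mul, E2_const_mul, ha.E2_fst (hc.pow 3), ha.E2_snd (hc.pow 3),
    ha.E2_mul (hc.pow 2) hc, ha.E2_mul hc (hc.pow 2), E_cent ha]
  unfold k3; ring

theorem t_SLAW : P_SLAW ∧ P_SM :=
  ⟨t_SLAW_only, fun _ ha => ⟨mean_S ha, vr_S ha, k3_S ha⟩⟩

end Pool.Agent.Q222.MK
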