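import Pool.Agent.Q291.MK.Stm

/-!
# Job TLAW: the law of the convolution square
-/

namespace Pool.Agent.Q222.MK

open Pool.Agent.Q291.MK Finset

lemma hyp_zero {K L j : ℕ} (h : K < j) : hyp K L j = 0 := by
  unfold hyp; rw [if_neg (by omega)]

lemma hasSum_H (K L : ℕ) (φ : ℕ → ℝ) : HasSum (fun j => hyp K L j * φ j) (H K L φ) := by
  unfold H
  refine hasSum_sum_of_ne_finset_zero fun j hj => ?_
  rw [Finset.mem_range, not_lt] at hj
  rw [hyp_zero (by omega), zero_mul]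

lemma H_le (hyp1 : P_HYP1) (K L : ℕ) {φ : ℕ → ℝ} {c : ℝ} (h : ∀ j, j ≤ K → |φ j| ≤ c) :
    H K L (fun j => |φ j|) ≤ c := by
  obtain ⟨h1, -, -, h4, -⟩ := hyp1 K L
  calc H K L (fun j => |φ j|) ≤ ∑ j ∈ Finset.range (K + 1), hyp K L j * c := by
        unfold H
        refine Finset.sum_le_sum fun j hj => mul_le_mul_of_nonneg_left (h j ?_) (h1 j)
        rw [Finset.mem_range] at hj; omega
    _ = (H K L (fun _ => 1)) * c := by
        unfold H; rw [Finset.sum_mul]; simp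
    _ = c := by rw [h4, one_mul]

lemma abs_H_le (hyp1 : P_HYP1) (K L : ℕ) (φ : ℕ → ℝ) :
    |H K L φ| ≤ H K L (fun j => |φ j|) := by
  obtain ⟨h1, -⟩ := hyp1 K L
  unfold H
  refine (Finset.abs_sum_le_sum_abs _ _).trans (le_of_eq ?_)
  refine Finset.sum_congr rfl fun j _ => ?_
  rw [abs_mul, abs_of_nonneg (h1 j)]

lemma H_abs_nonneg (hyp1 : P_HYP1) (K L : ℕ) (φ : ℕ → ℝ) :
    0 ≤ H K L (fun j => |φ j|) := by
  obtain ⟨h1, -⟩ := hyp1 K L
  exact Finset.sum_nonneg fun j _ => mul_nonneg (h1 j) (abs_nonneg _)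

lemma PB2_H_abs (hyp1 : P_HYP1) {φ : ℕ → ℝ} (h : PB φ) :
    PB2 (fun K L => H K L (fun j => |φ j|)) := by
  obtain ⟨C, q, hC, h⟩ := h.nonneg_C
  refine ⟨C, q, fun K L => ?_⟩
  rw [abs_of_nonneg (H_abs_nonneg hyp1 K L φ)]
  refine H_le hyp1 K L fun j hj => (h j).trans ?_
  have h2 : (0:ℝ) ≤ L := Nat.cast_nonneg L
  have h1 : (0:ℝ) ≤ K := Nat.cast_nonneg K
  have h3 : (j:ℝ) ≤ K := by exact_mod_cast hj
  have h4 : (0:ℝ) ≤ j := Nat.cast_nonneg j
  gcongr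
  nlinarith [mul_nonneg h1 h2]

lemma PB2_H (hyp1 : P_HYP1) {φ : ℕ → ℝ} (h : PB φ) : PB2 (fun K L => H K L φ) :=
  (PB2_H_abs hyp1 h).of_le fun K L => abs_H_le hyp1 K L φ

lemma hyp_le_one (hyp1 : P_HYP1) (K L j : ℕ) : hyp K L j ≤ 1 := by
  obtain ⟨h1, h2, -, h4, -⟩ := hyp1 K L
  by_cases hj : j ≤ K
  · have : hyp K L j * 1 ≤ H K L (fun _ => 1) := by
      unfold H
      exact Finset.single_le_sum (f := fun j => hyp K L j * 1)
        (fun i _ => by simpa using h1 i) (by rw [Finset.mem_range]; omega)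
    rw [h4] at this; linarith
  · rw [h2 j (by omega)]; norm_num

lemma PB2_hyp (hyp1 : P_HYP1) (j : ℕ) : PB2 (fun K L => hyp K L j) :=
  PB2.bdd 1 fun K L => by
    rw [abs_of_nonneg ((hyp1 K L).1 j)]; exact hyp_le_one hyp1 K L j

lemma hasSum_T (hyp1 : P_HYP1) {a : ℕ → ℝ} (ha : AM a) {φ : ℕ → ℝ} (h : PB φ) :
    HasSum (fun j => T a j * φ j) (Ew a (fun K L => H K L φ)) := by
  set f : (ℕ × ℕ) × ℕ → ℝ := fun r =>
    a r.1.1 * a r.1.2 * (I (r.1.1 + r.1.2) * (hyp r.1.1 r.1.2 r.2 * φ r.2)) with hf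
  have hfib : ∀ p : ℕ × ℕ, HasSum (fun j => f (p, j))
      (a p.1 * a p.2 * (I (p.1 + p.2) * H p.1 p.2 φ)) := fun p =>
    ((hasSum_H p.1 p.2 φ).mul_left _).mul_left _
  have hfibn : ∀ p : ℕ × ℕ, HasSum (fun j => ‖f (p, j)‖)
      (a p.1 * a p.2 * (I (p.1 + p.2) * H p.1 p.2 (fun j => |φ j|))) := fun p => by
    have h5 := ((hasSum_H p.1 p.2 (fun j => |φ j|)).mul_left (I (p.1 + p.2))).mul_left
      (a p.1 * a p.2)
    have h6 : (fun j => ‖f (p, j)‖) = fun j =>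
        a p.1 * a p.2 * (I (p.1 + p.2) * (hyp p.1 p.2 j * |φ j|)) := by
      funext j
      simp only [hf, Real.norm_eq_abs, abs_mul, abs_of_nonneg (ha.nn _), abs_of_pos (I_pos _),
        abs_of_nonneg ((hyp1 p.1 p.2).1 j)]
    rw [h6]; exact h5
  have hs : Summable f := by
    refine Summable.of_norm ?_
    rw [summable_prod_of_nonneg (fun r => norm_nonneg _)]
    refine ⟨fun p => (hfibn p).summable, ?_⟩
    have : (fun p : ℕ × ℕ => ∑' j, ‖f (p, j)‖) = fun p =>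
        a p.1 * a p.2 * (I (p.1 + p.2) * H p.1 p.2 (fun j => |φ j|)) :=
      funext fun p => (hfibn p).tsum_eq
    rw [this]
    exact ha.summ2 (PB2.I.mul (PB2_H_abs hyp1 h))
  have h1 : HasSum f (E2 a (fun K L => I (K + L) * H K L φ)) := by
    have := hs.hasSum.prod_fiberwise hfib
    have h2 := (ha.summ2 (PB2.I.mul (PB2_H hyp1 h))).hasSum
    have h3 := this.unique h2
    rw [← h3] at h2
    have h4 : E2 a (fun K L => I (K + L) * H K L φ) = ∑' r, f r := h3.symm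
    rw [h4]; exact hs.hasSum
  have h2 : HasSum (f ∘ (Equiv.prodComm ℕ (ℕ × ℕ)))
      (E2 a (fun K L => I (K + L) * H K L φ)) :=
    (Equiv.prodComm ℕ (ℕ × ℕ)).hasSum_iff.mpr h1
  have h3 : ∀ j : ℕ, HasSum (fun p : ℕ × ℕ => (f ∘ (Equiv.prodComm ℕ (ℕ × ℕ))) (j, p))
      (E2 a (fun K L => I (K + L) * hyp K L j) * φ j) := fun j => by
    have h5 := (ha.summ2 (PB2.I.mul (PB2_hyp hyp1 j))).hasSum.mul_right (φ j)
    have h6 : (fun p : ℕ × ℕ => (f ∘ (Equiv.prodComm ℕ (ℕ × ℕ))) (j, p)) = fun p : ℕ × ℕ =>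
        a p.1 * a p.2 * (I (p.1 + p.2) * hyp p.1 p.2 j) * φ j := by
      funext p
      simp only [hf, Function.comp, Equiv.prodComm_apply, Prod.swap_prod_mk]
      ring
    rw [h6]; exact h5
  have h4 := (h2.prod_fiberwise h3).div_const (E2 a (fun K L => I (K + L)))
  have h7 : (fun j => T a j * φ j) = fun j =>
      E2 a (fun K L => I (K + L) * hyp K L j) * φ j / E2 a (fun K L => I (K + L)) := by
    funext j
    simp only [T, Ew]
    ring
  rw [h7]; exact h4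

lemma AM_T (hyp1 : P_HYP1) {a : ℕ → ℝ} (ha : AM a) : AM (T a) := by
  refine ⟨⟨fun j => ?_, ?_⟩, fun q => (hasSum_T hyp1 ha (PB.id.pow q)).summable⟩
  · have := ha.Ew_mono (PB2.const 0) (PB2_hyp hyp1 j) (fun K L => (hyp1 K L).1 j)
    rw [ha.Ew_const] at this
    exact this
  · have := hasSum_T hyp1 ha (PB.const 1)
    have h1 : (fun K L => H K L (fun _ => (1:ℝ))) = fun _ _ => 1 := by
      funext K L; exact (hyp1 K L).2.2.2.1
    rw [h1, ha.Ew_const] at this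
    simpa using this

theorem t_TLAW : P_HYP1 → P_TLAW := fun hyp1 _ ha =>
  ⟨AM_T hyp1 ha, fun _ hφ => ⟨PB2_H hyp1 hφ, (hasSum_T hyp1 ha hφ).tsum_eq⟩⟩

end Pool.Agent.Q222.MK
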